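import Mathlib

set_option autoImplicit false

namespace Pool.W650.HL

open Finset

noncomputable section

/-- Weighted count of proper colourings of G with vertex factors F:
sum over proper maps V -> Fin r of the product of a (colour) * F v (colour). -/
def Zf {V : Type} [Fintype V] {r : ℕ} (a : Fin r → ℝ) (G : SimpleGraph V)
    (F : V → Fin r → ℝ) : ℝ := by
  classical
  exact ∑ σ : V → Fin r,
    if (∀ u v, G.Adj u v → σ u ≠ σ v) then ∏ v, (a (σ v) * F v (σ v)) else 0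

/-- Message operator of an edge. -/
def Mop {r : ℕ} (a : Fin r → ℝ) (f : Fin r → ℝ) : Fin r → ℝ :=
  fun i => (∑ j, a j * f j) - a i * f i

/-- `U a k` is the k-th iterate of the message operator applied to 1. -/
def U {r : ℕ} (a : Fin r → ℝ) (k : ℕ) : Fin r → ℝ := (Mop a)^[k] (fun _ => 1)

/-- vertex deletion -/
def del {V : Type} (G : SimpleGraph V) (l : V) : SimpleGraph {v : V // v ≠ l} :=
  G.comap Subtype.val

/-- degree -/
def dg {V : Type} (G : SimpleGraph V) (v : V) : ℕ := (G.neighborSet v).ncard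

/-- l is a leaf with neighbour u -/
def Leaf {V : Type} (G : SimpleGraph V) (l u : V) : Prop :=
  G.Adj l u ∧ ∀ w, G.Adj l w → w = u

/-- normalised positive weights with the auxiliary number lam -/
structure Good {r : ℕ} (a : Fin r → ℝ) (lam : ℝ) : Prop where
  pos : ∀ i, 0 < a i
  sum_one : ∑ i, a i = 1
  lam_pos : 0 < lam
  eqn : ∑ i, a i / (lam + a i) = 1

variable {r : ℕ}

def pp (a : Fin r → ℝ) (lam : ℝ) (i : Fin r) : ℝ := a i / (lam + a i)
def WW (a : Fin r → ℝ) (lam : ℝ) : ℝ := 1 - ∑ i, pp a lam i ^ 2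
def mm (a : Fin r → ℝ) (lam : ℝ) (i : Fin r) : ℝ := pp a lam i * (1 - pp a lam i) / WW a lam
def phi (a : Fin r → ℝ) (lam : ℝ) (i : Fin r) : ℝ := 1 + a i / lam
def chi (a : Fin r → ℝ) (lam : ℝ) (i : Fin r) : ℝ := (1 - a i) / lam
/-- expectation for the probability vector mm -/
def EE (a : Fin r → ℝ) (lam : ℝ) (g : Fin r → ℝ) : ℝ := ∑ i, mm a lam i * g i
def bb (a : Fin r → ℝ) (lam : ℝ) : ℝ := EE a lam (fun i => a i / lam)
def vv (a : Fin r → ℝ) (lam : ℝ) : ℝ := 1 / lam - 1 - bb a lam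

end

/-! ### Counting homomorphisms -/

/-- HOM: the number of homomorphisms into a complete multipartite graph. -/
def HOM : Prop :=
  ∀ (r : ℕ) (W : Type) [Fintype W] (p : W → Fin r) (V : Type) [Fintype V] (G : SimpleGraph V),
    (Nat.card {f : V → W // ∀ a b : V, G.Adj a b → p (f a) ≠ p (f b)} : ℝ)
      = Zf (fun i : Fin r => (Nat.card {w : W // p w = i} : ℝ)) G (fun _ _ => 1)

/-- SCALE -/
def SCALE : Prop :=
  ∀ (r : ℕ) (V : Type) [Fintype V] (G : SimpleGraph V) (a : Fin r → ℝ) (F : V → Fin r → ℝ) (s : ℝ),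
    Zf (fun i => s * a i) G F = s ^ (Fintype.card V) * Zf a G F

/-! ### Leaf removal -/

/-- LEAFREM -/
def LEAFREM : Prop :=
  ∀ (V : Type) [Fintype V] [DecidableEq V] (r : ℕ) (a : Fin r → ℝ) (G : SimpleGraph V)
    (F : V → Fin r → ℝ) (l u : V), Leaf G l u →
    Zf a G F = Zf a (del G l)
      (fun v i => if v.1 = u then F u i * Mop a (F l) i else F v.1 i)

/-- DELTREE -/
def DELTREE : Prop :=
  ∀ (V : Type) [Fintype V] [DecidableEq V] (G : SimpleGraph V) (l u : V), G.IsTree → Leaf G l u →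
    (del G l).IsTree ∧ ∀ w : {v : V // v ≠ l},
      (w.1 = u → dg (del G l) w + 1 = dg G w.1) ∧ (w.1 ≠ u → dg (del G l) w = dg G w.1)

/-- EXLEAF: every tree with at least two vertices has a leaf different from c. -/
def EXLEAF : Prop :=
  ∀ (V : Type) [Fintype V] (G : SimpleGraph V), G.IsTree → ∀ c : V, 2 ≤ Fintype.card V →
    ∃ l u, l ≠ c ∧ Leaf G l u

/-- DGLEAF -/
def DGLEAF : Prop :=
  ∀ (V : Type) [Fintype V] (G : SimpleGraph V) (l : V), dg G l = 1 ↔ ∃ u, Leaf G l u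

/-- COUNT: a tree is a spider with at most three legs, or it has four pairwise nonadjacent
leaves. -/
def COUNT : Prop :=
  ∀ (V : Type) [Fintype V] (G : SimpleGraph V), G.IsTree →
    (∃ c, dg G c ≤ 3 ∧ ∀ v, v ≠ c → dg G v ≤ 2) ∨
    (∃ S : Finset V, 4 ≤ S.card ∧ (∀ v ∈ S, dg G v = 1) ∧ ∀ v ∈ S, ∀ w ∈ S, ¬ G.Adj v w)

/-- LEGS: the weighted count of a spider. -/
def LEGS : Prop :=
  ∀ (V : Type) [Fintype V] (r : ℕ) (a : Fin r → ℝ) (G : SimpleGraph V) (c : V), G.IsTree →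
    (∀ v, v ≠ c → dg G v ≤ 2) →
    ∃ L : List ℕ, L.length = dg G c ∧ L.sum + 1 = Fintype.card V ∧
      Zf a G (fun _ _ => 1) = ∑ i, a i * (L.map (fun k => U a k i)).prod

/-- PATHZ: the weighted count of the path with n+1 vertices. -/
def PATHZ : Prop :=
  ∀ (n r : ℕ) (a : Fin r → ℝ),
    Zf a (SimpleGraph.pathGraph (n + 1)) (fun _ _ => 1) = ∑ i, a i * U a n i

/-- SELF -/
def SELF : Prop :=
  ∀ (r : ℕ) (a : Fin r → ℝ) (k l : ℕ), ∑ i, a i * (U a k i * U a l i) = ∑ i, a i * U a (k + l) i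

/-- KC3: three legs at a vertex weigh at least as much as the path. -/
def KC3 : Prop :=
  ∀ (r : ℕ) (a : Fin r → ℝ), (∀ i, 0 < a i) → ∑ i, a i = 1 → ∀ k l m : ℕ,
    ∑ i, a i * U a (k + l + m) i ≤ ∑ i, a i * (U a k i * U a l i * U a m i)

/-! ### Analytic part -/

/-- LAM -/
def LAM : Prop :=
  ∀ (r : ℕ) (a : Fin r → ℝ), 2 ≤ r → (∀ i, 0 < a i) → ∑ i, a i = 1 → ∃ lam : ℝ, Good a lam

/-- MFACTS -/
def MFACTS : Prop :=
  ∀ (r : ℕ) (a : Fin r → ℝ) (lam : ℝ), Good a lam →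
    0 < WW a lam ∧ (∀ i, 0 < pp a lam i ∧ pp a lam i < 1 ∧ a i < 1) ∧ (∀ i, 0 < mm a lam i) ∧
    ∑ i, mm a lam i = 1 ∧ 1 + bb a lam = 1 / WW a lam ∧ 0 < bb a lam ∧ 0 ≤ vv a lam ∧
    EE a lam (fun i => (a i / lam - bb a lam) ^ 2) = (1 + bb a lam) * vv a lam

/-- JEN -/
def JEN : Prop :=
  ∀ (r : ℕ) (a : Fin r → ℝ) (lam : ℝ), Good a lam → ∀ f : Fin r → ℝ, (∀ i, 0 < f i) →
    (∀ i, 0 < Mop a f i) ∧
    Real.log lam + EE a lam (fun i => Real.log (f i))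
      ≤ EE a lam (fun i => Real.log (Mop a f i))

/-- BASE -/
def BASE : Prop :=
  ∀ (r : ℕ) (a : Fin r → ℝ) (lam : ℝ), Good a lam → ∀ f : Fin r → ℝ, (∀ i, 0 < f i) →
    Real.log lam + Real.log (WW a lam) + 2 * EE a lam (fun i => Real.log (phi a lam i))
      + EE a lam (fun i => Real.log (f i)) ≤ Real.log (∑ i, a i * f i)

/-- TREELOG: the entropy (Jensen) lower bound for trees. -/
def TREELOG : Prop :=
  ∀ (V : Type) [Fintype V] (r : ℕ) (a : Fin r → ℝ) (lam : ℝ), Good a lam →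
    ∀ (G : SimpleGraph V), G.IsTree → ∀ (F : V → Fin r → ℝ), (∀ v i, 0 < F v i) →
    ∀ S : Finset V, (∀ v ∈ S, dg G v = 1) → (∀ v ∈ S, ∀ w ∈ S, ¬ G.Adj v w) →
      (∀ v ∈ S, ∀ i, F v i = 1) →
      0 < Zf a G F ∧
      (Fintype.card V : ℝ) * Real.log lam + Real.log (WW a lam)
        + 2 * EE a lam (fun i => Real.log (phi a lam i))
        + ∑ v, EE a lam (fun i => Real.log (F v i))
        + (S.card : ℝ) * EE a lam (fun i => Real.log (chi a lam i)) ≤ Real.log (Zf a G F)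

/-- PATHUP: upper bound for paths with n+1 >= 4 vertices. -/
def PATHUP : Prop :=
  ∀ (r : ℕ) (a : Fin r → ℝ) (lam : ℝ), Good a lam → ∀ X : ℝ, (∀ i, a i / lam ≤ X) →
    ∀ n : ℕ, 3 ≤ n →
    ∑ i, a i * U a n i ≤ lam ^ (n + 1) * WW a lam *
      ((1 + bb a lam) ^ 2 + X ^ 4 * ((1 + bb a lam) * vv a lam))

/-- FINP: the pointwise inequality for y >= 0. -/
def FINP : Prop :=
  ∀ b v y : ℝ, 0 ≤ b → b ≤ 3 / 5 → 0 ≤ v → v * (8 + 5 * b) ≤ b * (3 - 5 * b) →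
    0 ≤ y → 8 * y ≤ 3 - 5 * b + 3 * v →
    4 * (v - v ^ 2 / 2) + (-4 / (1 + v) + 2 / (1 + b)) * y
      - (4 - 2 * v - (3 / 8 * (1 + b + v)) ^ 4 / (1 + b)) / (1 + b) * y ^ 2
      ≤ 4 * Real.log (1 + v - y) + 2 * Real.log (1 + y / (1 + b))

/-- FINN: the pointwise inequality for y <= 0. -/
def FINN : Prop :=
  ∀ b v y : ℝ, 0 ≤ b → b ≤ 3 / 5 → 0 ≤ v → v * (8 + 5 * b) ≤ b * (3 - 5 * b) →
    y ≤ 0 → -b ≤ y →
    4 * (v - v ^ 2 / 2) + (-4 / (1 + v) + 2 / (1 + b)) * y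
      - (4 - 2 * v - (3 / 8 * (1 + b + v)) ^ 4 / (1 + b)) / (1 + b) * y ^ 2
      ≤ 4 * Real.log (1 + v - y) + 2 * Real.log (1 + y / (1 + b))

/-- FININT -/
def FININT : Prop :=
  ∀ (r : ℕ) (a : Fin r → ℝ) (lam : ℝ), Good a lam → (∀ i, a i ≤ 3 / 8) →
    Real.log ((1 + bb a lam) ^ 2 + (3 / 8 / lam) ^ 4 * ((1 + bb a lam) * vv a lam))
      ≤ 2 * EE a lam (fun i => Real.log (phi a lam i))
        + 4 * EE a lam (fun i => Real.log (chi a lam i))

end Pool.W650.HL
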