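import Pool.Agent.W650.HL.AllB
import Pool.Agent.W481.HL.Finn
import Pool.Agent.W854.HL.FinInt
import Pool.Agent.W452.HL.Finp

set_option autoImplicit false

namespace Pool.W650.HL

theorem finint' : FININT :=
  Pool.Agent.W854.HL.finint Pool.W452.HL.finp Pool.W481.HL.finn mfacts'

theorem thmA :
    ∀ r : ℕ, 3 ≤ r → ∀ (W : Type) [Fintype W] (p : W → Fin r), Function.Surjective p →
      (∀ i : Fin r, 8 * Nat.card {w : W // p w = i} ≤ 3 * Nat.card W) →
      ∀ (n : ℕ) (T : SimpleGraph (Fin n)), T.IsTree →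
        Nat.card {f : Fin n → W //
            ∀ a b : Fin n, (SimpleGraph.pathGraph n).Adj a b → p (f a) ≠ p (f b)}
          ≤ Nat.card {f : Fin n → W // ∀ a b : Fin n, T.Adj a b → p (f a) ≠ p (f b)} :=
  final hom' scale' pathz' count' legs' self' kc3' lam' mfacts' jen' treelog' pathup' finint'

end Pool.W650.HL
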