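import Pool.Agent.W650.HL.Exp
import Pool.Agent.W193.HL.Hom
import Pool.Agent.W741.HL.Del
import Pool.Agent.W313.HL.KC
import Pool.Agent.W255.HL.LeafRem
import Pool.Agent.W253.HL.Count
import Pool.Agent.W768.HL.Lam
import Pool.Agent.W15.HL.TreeLog
import Pool.Agent.W667.HL.PathUp
import Pool.Agent.W357.HL.Legs
import Pool.Agent.W311.HL.Pathz
import Pool.Agent.W114.HL.Jen

set_option autoImplicit false

namespace Pool.W650.HL

theorem hom' : HOM := Pool.Agent.W193.HL.hom
theorem scale' : SCALE := Pool.Agent.W193.HL.scale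
theorem deltree' : DELTREE := Pool.W741.HL.deltree
theorem exleaf' : EXLEAF := Pool.W741.HL.exleaf
theorem dgleaf' : DGLEAF := Pool.W741.HL.dgleaf
theorem self' : SELF := Pool.Agent.W313.HL.self
theorem kc3' : KC3 := Pool.Agent.W313.HL.kc3
theorem leafrem' : LEAFREM := Pool.Agent.W255.HL.leafrem
theorem count' : COUNT := Pool.Agent.W253.HL.count
theorem lam' : LAM := Pool.Agent.W768.HL.lam
theorem mfacts' : MFACTS := Pool.Agent.W768.HL.mfacts
theorem jen' : JEN := Pool.W114.HLJ.jen mfacts'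
theorem base' : BASE := Pool.W114.HLJ.base mfacts'
theorem treelog' : TREELOG :=
  Pool.Agent.W15.HL.treelog leafrem' deltree' exleaf' dgleaf' jen' base' mfacts'
theorem pathup' : PATHUP := Pool.Agent.W667.HL.pathup mfacts'
theorem legs' : LEGS := Pool.Agent.W357.HL.legs leafrem' deltree' exleaf' dgleaf'
theorem pathz' : PATHZ := Pool.Agent.W311.HL.pathz

theorem thmB :
    ∀ r : ℕ, 3 ≤ r → ∀ (W : Type) [Fintype W] (p : W → Fin r), Function.Surjective p →
      (∃ i j : Fin r, Nat.card {w : W // p w = i} ≠ Nat.card {w : W // p w = j}) →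
      ∃ c : ℝ, 0 < c ∧ ∃ κ : ℝ, 1 < κ ∧
      ∀ (n : ℕ) (T : SimpleGraph (Fin n)), T.IsTree →
        c * κ ^ ({v : Fin n | (T.neighborSet v).ncard = 1}.ncard) *
          (Nat.card {f : Fin n → W //
            ∀ a b : Fin n, (SimpleGraph.pathGraph n).Adj a b → p (f a) ≠ p (f b)} : ℝ)
          ≤ (Nat.card {f : Fin n → W // ∀ a b : Fin n, T.Adj a b → p (f a) ≠ p (f b)} : ℝ) :=
  finalexp hom' scale' pathz' count' legs' self' kc3' lam' mfacts' treelog' pathup'
    deltree' dgleaf'

end Pool.W650.HL
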