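import Pool.Agent.W650.HL.Stm

set_option autoImplicit false

namespace Pool.W650.HL

open Finset

theorem dpos (hmf : MFACTS) (r : ℕ) (hr : 3 ≤ r) (a : Fin r → ℝ) (lam : ℝ) (hg : Good a lam)
    (hne : ∃ i j, a i ≠ a j) : 0 < EE a lam (fun i => Real.log (chi a lam i)) := by
  obtain ⟨hW, hpp, hmm, hsm, hb1, hb0, hv0, hvar⟩ := hmf r a lam hg
  have hlp : 0 < lam := hg.lam_pos
  have hla : ∀ i, 0 < lam + a i := fun i => add_pos hlp (hg.pos i)
  have hphi : ∀ i, 0 < phi a lam i := by
    intro i
    have := hg.pos i
    unfold phi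
    positivity
  have hpphi : ∀ i, pp a lam i * phi a lam i = a i / lam := by
    intro i
    have := hla i
    unfold pp phi
    field_simp
  have h1p : ∀ i, (1 - pp a lam i) * phi a lam i = 1 := by
    intro i
    have := hla i
    unfold pp phi
    field_simp
    ring
  have hsp : ∑ i, pp a lam i = 1 := hg.eqn
  have hchipos : ∀ i, 0 < chi a lam i := by
    intro i
    have := (hpp i).2.2
    unfold chi
    apply div_pos _ hlp
    linarith
  set Lg : Fin r → ℝ := fun j => Real.log (phi a lam j) with hLg
  -- row inequality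
  have hsum_w : ∀ i, ∑ j ∈ univ.erase i, phi a lam i * pp a lam j = 1 := by
    intro i
    rw [← Finset.mul_sum]
    have : ∑ j ∈ univ.erase i, pp a lam j = 1 - pp a lam i := by
      have h := Finset.add_sum_erase univ (fun j => pp a lam j) (Finset.mem_univ i)
      rw [hsp] at h
      linarith
    rw [this, mul_comm]
    exact h1p i
  have hsum_v : ∀ i, ∑ j ∈ univ.erase i, (phi a lam i * pp a lam j) * phi a lam j
      = phi a lam i * chi a lam i := by
    intro i
    have e1 : ∀ j, (phi a lam i * pp a lam j) * phi a lam j = phi a lam i * (a j / lam) := by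
      intro j
      rw [mul_assoc, hpphi]
    rw [Finset.sum_congr rfl fun j _ => e1 j, ← Finset.mul_sum]
    congr 1
    have h := Finset.add_sum_erase univ (fun j => a j / lam) (Finset.mem_univ i)
    rw [← Finset.sum_div, ← Finset.sum_div, hg.sum_one] at h
    rw [← Finset.sum_div]
    unfold chi
    have h2 : (1 - a i) / lam = 1 / lam - a i / lam := by ring
    rw [h2]
    linarith
  have hrow : ∀ i, ∑ j ∈ univ.erase i, (phi a lam i * pp a lam j) * Lg j
      ≤ Real.log (phi a lam i * chi a lam i) := by
    intro i
    have h := strictConcaveOn_log_Ioi.concaveOn.le_map_sum (t := univ.erase i)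
      (w := fun j => phi a lam i * pp a lam j) (p := fun j => phi a lam j)
      (fun j _ => (mul_pos (hphi i) (hpp j).1).le) (hsum_w i) (fun j _ => hphi j)
    simp only [smul_eq_mul] at h
    rw [hsum_v i] at h
    exact h
  obtain ⟨j, k, hjk⟩ := hne
  have hjk' : j ≠ k := fun h => hjk (by rw [h])
  obtain ⟨i0, hi0⟩ : ∃ i : Fin r, i ≠ j ∧ i ≠ k := by
    have hc : ({j, k} : Finset (Fin r)).card < (univ : Finset (Fin r)).card := by
      have h2 : ({j, k} : Finset (Fin r)).card ≤ 2 := Finset.card_le_two
      rw [Finset.card_univ, Fintype.card_fin]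
      omega
    obtain ⟨i, _, hi⟩ := Finset.exists_mem_notMem_of_card_lt_card hc
    refine ⟨i, ?_, ?_⟩
    · intro h; apply hi; simp [h]
    · intro h; apply hi; simp [h]
  have hstrict : ∑ j ∈ univ.erase i0, (phi a lam i0 * pp a lam j) * Lg j
      < Real.log (phi a lam i0 * chi a lam i0) := by
    have h := strictConcaveOn_log_Ioi.lt_map_sum (t := univ.erase i0)
      (w := fun j => phi a lam i0 * pp a lam j) (p := fun j => phi a lam j)
      (fun j _ => (mul_pos (hphi i0) (hpp j).1)) (hsum_w i0) (fun j _ => hphi j)
      ⟨j, by simp [hi0.1.symm], k, by simp [hi0.2.symm], by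
        unfold phi
        intro h
        apply hjk
        have h' : a j / lam = a k / lam := by linarith
        field_simp at h'
        exact h'⟩
    simp only [smul_eq_mul] at h
    rw [hsum_v i0] at h
    exact h
  have htot : ∑ i, mm a lam i * (∑ j ∈ univ.erase i, (phi a lam i * pp a lam j) * Lg j)
      < ∑ i, mm a lam i * Real.log (phi a lam i * chi a lam i) := by
    apply Finset.sum_lt_sum
    · intro i _
      exact mul_le_mul_of_nonneg_left (hrow i) (hmm i).le
    · exact ⟨i0, Finset.mem_univ _, mul_lt_mul_of_pos_left hstrict (hmm i0)⟩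
  have hmphi : ∀ i, mm a lam i * phi a lam i = pp a lam i / WW a lam := by
    intro i
    unfold mm
    have := h1p i
    field_simp
    linear_combination pp a lam i * this
  have hL : ∑ i, mm a lam i * (∑ j ∈ univ.erase i, (phi a lam i * pp a lam j) * Lg j)
      = EE a lam Lg := by
    have e1 : ∀ i, mm a lam i * (∑ j ∈ univ.erase i, (phi a lam i * pp a lam j) * Lg j)
        = pp a lam i / WW a lam * (∑ j, pp a lam j * Lg j)
          - pp a lam i / WW a lam * (pp a lam i * Lg i) := by
      intro i
      have e2 : ∑ j ∈ univ.erase i, (phi a lam i * pp a lam j) * Lg j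
          = phi a lam i * (∑ j ∈ univ.erase i, pp a lam j * Lg j) := by
        rw [Finset.mul_sum]
        exact Finset.sum_congr rfl fun j _ => by ring
      have e3 : ∑ j ∈ univ.erase i, pp a lam j * Lg j
          = (∑ j, pp a lam j * Lg j) - pp a lam i * Lg i := by
        have h := Finset.add_sum_erase univ (fun j => pp a lam j * Lg j) (Finset.mem_univ i)
        linarith
      rw [e2, e3, ← mul_assoc, hmphi]
      ring
    rw [Finset.sum_congr rfl fun i _ => e1 i, Finset.sum_sub_distrib, ← Finset.sum_mul,
      ← Finset.sum_div, hsp]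
    unfold EE mm
    rw [Finset.mul_sum, ← Finset.sum_sub_distrib]
    exact Finset.sum_congr rfl fun i _ => by ring
  have hR : ∑ i, mm a lam i * Real.log (phi a lam i * chi a lam i)
      = EE a lam Lg + EE a lam (fun i => Real.log (chi a lam i)) := by
    unfold EE
    rw [← Finset.sum_add_distrib]
    refine Finset.sum_congr rfl fun i _ => ?_
    rw [Real.log_mul (hphi i).ne' (hchipos i).ne']
    ring
  rw [hL, hR] at htot
  linarith

end Pool.W650.HL
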