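import Pool.Agent.W650.HL.Stm

set_option autoImplicit false

namespace Pool.W650.HL

open Finset

theorem Mop_one {r : ℕ} (a : Fin r → ℝ) (hs : ∑ i, a i = 1) (i : Fin r) :
    Mop a (fun _ => 1) i = 1 - a i := by
  simp [Mop, hs]

theorem spider_ge (hlegs : LEGS) (hself : SELF) (hkc : KC3) (V : Type) [Fintype V] (r : ℕ)
    (a : Fin r → ℝ) (hpos : ∀ i, 0 < a i) (hs : ∑ i, a i = 1) (G : SimpleGraph V) (hG : G.IsTree)
    (c : V) (hc : dg G c ≤ 3) (hv : ∀ v, v ≠ c → dg G v ≤ 2) (n : ℕ)
    (hn : Fintype.card V = n + 1) :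
    ∑ i, a i * U a n i ≤ Zf a G (fun _ _ => 1) := by
  obtain ⟨L, hL, hsum, hZ⟩ := hlegs V r a G c hG hv
  rw [hZ]
  rw [← hL] at hc
  rw [hn] at hsum
  have hsum' : L.sum = n := by omega
  subst hsum'
  rcases L with _ | ⟨k, L⟩
  · simp [U]
  · rcases L with _ | ⟨l, L⟩
    · simp
    · rcases L with _ | ⟨m, L⟩
      · have := hself r a k l
        simp only [List.sum_cons, List.sum_nil, List.map_cons, List.map_nil, List.prod_cons,
          List.prod_nil, mul_one, add_zero]
        rw [this]
      · rcases L with _ | ⟨q, L⟩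
        · have := hkc r a hpos hs k l m
          simp only [List.sum_cons, List.sum_nil, List.map_cons, List.map_nil, List.prod_cons,
            List.prod_nil, mul_one, add_zero]
          have e : k + (l + m) = k + l + m := by ring
          rw [e]
          refine this.trans (le_of_eq ?_)
          refine Finset.sum_congr rfl fun i _ => ?_
          ring
        · simp only [List.length_cons] at hc
          omega

theorem analytic (hcount : COUNT) (hlegs : LEGS) (hself : SELF) (hkc : KC3) (hlam : LAM)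
    (hmf : MFACTS) (hjen : JEN) (htl : TREELOG) (hpu : PATHUP) (hfi : FININT)
    (V : Type) [Fintype V] (r : ℕ) (h2 : 2 ≤ r)
    (a : Fin r → ℝ) (hpos : ∀ i, 0 < a i) (hs : ∑ i, a i = 1) (h38 : ∀ i, a i ≤ 3 / 8)
    (G : SimpleGraph V) (hG : G.IsTree) (n : ℕ) (hn : Fintype.card V = n + 1) :
    ∑ i, a i * U a n i ≤ Zf a G (fun _ _ => 1) := by
  rcases hcount V G hG with ⟨c, hc, hv⟩ | ⟨S, hS4, hS1, hSn⟩
  · exact spider_ge hlegs hself hkc V r a hpos hs G hG c hc hv n hn
  obtain ⟨lam, hg⟩ := hlam r a h2 hpos hs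
  have hn3 : 3 ≤ n := by
    have : S.card ≤ Fintype.card V := Finset.card_le_univ S
    omega
  obtain ⟨hW, hpp, hmm, hsm, hb1, hb0, hv0, hvar⟩ := hmf r a lam hg
  have hlp : 0 < lam := hg.lam_pos
  -- nonnegativity of the expectation of log chi
  have hchipos : ∀ i, 0 < chi a lam i := by
    intro i
    have := (hpp i).2.2
    unfold chi
    apply div_pos _ hlp
    linarith
  have hD : 0 ≤ EE a lam (fun i => Real.log (chi a lam i)) := by
    have h := (hjen r a lam hg (fun _ => 1) (fun _ => one_pos)).2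
    have e1 : EE a lam (fun i => Real.log ((fun _ : Fin r => (1:ℝ)) i)) = 0 := by
      simp [EE]
    have e2 : EE a lam (fun i => Real.log (Mop a (fun _ => 1) i))
        = Real.log lam + EE a lam (fun i => Real.log (chi a lam i)) := by
      unfold EE
      have : ∀ i, mm a lam i * Real.log (Mop a (fun _ => 1) i)
          = mm a lam i * Real.log lam + mm a lam i * Real.log (chi a lam i) := by
        intro i
        rw [Mop_one a hs i]
        have e3 : 1 - a i = lam * chi a lam i := by
          unfold chi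
          field_simp
        rw [e3, Real.log_mul hlp.ne' (hchipos i).ne']
        ring
      rw [Finset.sum_congr rfl fun i _ => this i, Finset.sum_add_distrib, ← Finset.sum_mul, hsm,
        one_mul]
    rw [e1, e2] at h
    linarith
  have htree := htl V r a lam hg G hG (fun _ _ => 1) (fun _ _ => one_pos) S hS1 hSn
    (fun _ _ _ => rfl)
  obtain ⟨hZpos, hlog⟩ := htree
  have e0 : ∑ v : V, EE a lam (fun i => Real.log ((fun _ _ => (1:ℝ)) v i : ℝ)) = 0 := by
    simp [EE]
  rw [e0, hn] at hlog
  have hX : ∀ i, a i / lam ≤ 3 / 8 / lam := fun i => by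
    have := h38 i
    gcongr
  have hup := hpu r a lam hg (3 / 8 / lam) hX n hn3
  have hf := hfi r a lam hg h38
  refine hup.trans ?_
  set Y := (1 + bb a lam) ^ 2 + (3 / 8 / lam) ^ 4 * ((1 + bb a lam) * vv a lam) with hY
  have hYpos : 0 < Y := by
    have : 0 ≤ (3 / 8 / lam) ^ 4 * ((1 + bb a lam) * vv a lam) := by positivity
    have h2 : 0 < (1 + bb a lam) ^ 2 := by positivity
    linarith
  have hprod : 0 < lam ^ (n + 1) * WW a lam * Y := by positivity
  rw [← Real.log_le_log_iff hprod hZpos]
  rw [Real.log_mul (by positivity) hYpos.ne', Real.log_mul (by positivity) hW.ne', Real.log_pow]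
  have h4D : 4 * EE a lam (fun i => Real.log (chi a lam i))
      ≤ (S.card : ℝ) * EE a lam (fun i => Real.log (chi a lam i)) := by
    apply mul_le_mul_of_nonneg_right _ hD
    exact_mod_cast hS4
  linarith

theorem final (hhom : HOM) (hscale : SCALE) (hpath : PATHZ)
    (hcount : COUNT) (hlegs : LEGS) (hself : SELF) (hkc : KC3) (hlam : LAM)
    (hmf : MFACTS) (hjen : JEN) (htl : TREELOG) (hpu : PATHUP) (hfi : FININT) :
    ∀ r : ℕ, 3 ≤ r → ∀ (W : Type) [Fintype W] (p : W → Fin r), Function.Surjective p →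
      (∀ i : Fin r, 8 * Nat.card {w : W // p w = i} ≤ 3 * Nat.card W) →
      ∀ (n : ℕ) (T : SimpleGraph (Fin n)), T.IsTree →
        Nat.card {f : Fin n → W //
            ∀ a b : Fin n, (SimpleGraph.pathGraph n).Adj a b → p (f a) ≠ p (f b)}
          ≤ Nat.card {f : Fin n → W // ∀ a b : Fin n, T.Adj a b → p (f a) ≠ p (f b)} := by
  intro r hr W _ p hp h38 n T hT
  classical
  obtain _ | n := n
  · exfalso
    obtain ⟨v⟩ := hT.connected.nonempty
    exact v.elim0
  have hcard : (∑ i : Fin r, (Nat.card {w : W // p w = i} : ℝ)) = Nat.card W := by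
    have h1 : Nat.card W = ∑ i : Fin r, Nat.card {w : W // p w = i} := by
      simp only [Nat.card_eq_fintype_card]
      rw [← Fintype.card_sigma]
      exact Fintype.card_congr (Equiv.sigmaFiberEquiv p).symm
    rw [h1]
    push_cast
    rfl
  have hcpos : ∀ i : Fin r, 0 < (Nat.card {w : W // p w = i} : ℝ) := by
    intro i
    obtain ⟨w, hw⟩ := hp i
    haveI : Nonempty {w : W // p w = i} := ⟨⟨w, hw⟩⟩
    exact_mod_cast Nat.card_pos
  set s : ℝ := (Nat.card W : ℝ) with hs
  have hspos : 0 < s := by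
    rw [← hcard]
    haveI : Nonempty (Fin r) := ⟨⟨0, by omega⟩⟩
    exact Finset.sum_pos (fun i _ => hcpos i) Finset.univ_nonempty
  set a : Fin r → ℝ := fun i => (Nat.card {w : W // p w = i} : ℝ) / s with ha
  have hsa : (fun i : Fin r => (Nat.card {w : W // p w = i} : ℝ)) = fun i => s * a i := by
    funext i
    simp only [ha]
    field_simp
  have hapos : ∀ i, 0 < a i := fun i => div_pos (hcpos i) hspos
  have hasum : ∑ i, a i = 1 := by
    simp only [ha]
    rw [← Finset.sum_div, hcard, div_self hspos.ne']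
  have ha38 : ∀ i, a i ≤ 3 / 8 := by
    intro i
    simp only [ha]
    rw [div_le_div_iff₀ hspos (by norm_num)]
    have := h38 i
    have h' : (8 : ℝ) * Nat.card {w : W // p w = i} ≤ 3 * s := by
      rw [hs]
      exact_mod_cast this
    linarith
  have key : ∑ i, a i * U a n i ≤ Zf a T (fun _ _ => 1) :=
    analytic hcount hlegs hself hkc hlam hmf hjen htl hpu hfi (Fin (n + 1)) r (by omega) a
      hapos hasum ha38 T hT n (by simp)
  rw [← hpath n r a] at key
  have h1 := hhom r W p (Fin (n + 1)) (SimpleGraph.pathGraph (n + 1))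
  have h2 := hhom r W p (Fin (n + 1)) T
  rw [hsa, hscale] at h1 h2
  have : ((Nat.card {f : Fin (n + 1) → W //
            ∀ a b : Fin (n + 1), (SimpleGraph.pathGraph (n + 1)).Adj a b → p (f a) ≠ p (f b)} : ℕ) : ℝ)
          ≤ ((Nat.card {f : Fin (n + 1) → W //
            ∀ a b : Fin (n + 1), T.Adj a b → p (f a) ≠ p (f b)} : ℕ) : ℝ) := by
    rw [h1, h2]
    exact mul_le_mul_of_nonneg_left key (by positivity)
  exact_mod_cast this

end Pool.W650.HL
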