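import Pool.Agent.W650.HL.Stm
import Pool.Agent.W650.HL.Main
import Pool.Agent.W650.HL.Dpos

set_option autoImplicit false

namespace Pool.W650.HL

open Finset

theorem leaves_nonadj (hdel : DELTREE) (hdgl : DGLEAF) (V : Type) [Fintype V]
    (h3 : 3 ≤ Fintype.card V) (G : SimpleGraph V) (hG : G.IsTree) (v w : V) (hv : dg G v = 1)
    (hw : dg G w = 1) : ¬ G.Adj v w := by
  classical
  intro hadj
  obtain ⟨u, hu⟩ := (hdgl V G v).1 hv
  have hwu : w = u := hu.2 w hadj
  subst hwu
  obtain ⟨ht, hd⟩ := hdel V G v w hG hu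
  have hne : w ≠ v := hadj.ne'
  have h0 := (hd ⟨w, hne⟩).1 rfl
  rw [hw] at h0
  have hdz : dg (del G v) ⟨w, hne⟩ = 0 := by omega
  have hcard : Fintype.card {x : V // x ≠ v} = Fintype.card V - 1 := by
    rw [Fintype.card_subtype_compl, Fintype.card_subtype_eq]
  haveI : Nontrivial {x : V // x ≠ v} := by
    rw [← Fintype.one_lt_card_iff_nontrivial, hcard]
    omega
  obtain ⟨y, hy⟩ := ht.connected.preconnected.exists_adj_of_nontrivial ⟨w, hne⟩
  unfold dg at hdz
  rw [Set.ncard_eq_zero (Set.toFinite _)] at hdz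
  have : y ∈ (del G v).neighborSet ⟨w, hne⟩ := hy
  rw [hdz] at this
  exact this

theorem expmain (hcount : COUNT) (hlegs : LEGS) (hself : SELF) (hkc : KC3) (hlam : LAM)
    (hmf : MFACTS) (htl : TREELOG) (hpu : PATHUP) (hdel : DELTREE) (hdgl : DGLEAF)
    (r : ℕ) (h3 : 3 ≤ r)
    (a : Fin r → ℝ) (hpos : ∀ i, 0 < a i) (hs : ∑ i, a i = 1) (hne : ∃ i j, a i ≠ a j) :
    ∃ c : ℝ, 0 < c ∧ ∃ κ : ℝ, 1 < κ ∧ ∀ (V : Type) [Fintype V] (G : SimpleGraph V), G.IsTree →
      ∀ n : ℕ, Fintype.card V = n + 1 →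
      c * κ ^ ({v : V | dg G v = 1}.ncard) * ∑ i, a i * U a n i ≤ Zf a G (fun _ _ => 1) := by
  obtain ⟨lam, hg⟩ := hlam r a (by omega) hpos hs
  obtain ⟨hW, hpp, hmm, hsm, hb1, hb0, hv0, hvar⟩ := hmf r a lam hg
  have hlp : 0 < lam := hg.lam_pos
  have hD := dpos hmf r h3 a lam hg hne
  set D := EE a lam (fun i => Real.log (chi a lam i)) with hDdef
  set F := EE a lam (fun i => Real.log (phi a lam i)) with hFdef
  set Y := (1 + bb a lam) ^ 2 + (1 / lam) ^ 4 * ((1 + bb a lam) * vv a lam) with hY
  have hYpos : 0 < Y := by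
    have : 0 ≤ (1 / lam) ^ 4 * ((1 + bb a lam) * vv a lam) := by positivity
    have h2 : 0 < (1 + bb a lam) ^ 2 := by positivity
    linarith
  have hk1 : 1 < Real.exp D := Real.one_lt_exp_iff.2 hD
  have hk0 : 0 < Real.exp D := Real.exp_pos D
  refine ⟨min (Real.exp (2 * F) / Y) (1 / Real.exp D ^ 3), by positivity, Real.exp D, hk1, ?_⟩
  intro V _ G hG n hn
  have hUnn : ∀ k i, 0 ≤ U a k i := by
    intro k
    induction k with
    | zero => intro i; simp [U]
    | succ k ih =>
      intro i
      have : U a (k + 1) = Mop a (U a k) := by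
        unfold U
        rw [Function.iterate_succ_apply']
      rw [this]
      unfold Mop
      have h := Finset.add_sum_erase univ (fun j => a j * U a k j) (Finset.mem_univ i)
      have h' : 0 ≤ ∑ j ∈ univ.erase i, a j * U a k j :=
        Finset.sum_nonneg fun j _ => mul_nonneg (hpos j).le (ih j)
      linarith
  have hPnn : 0 ≤ ∑ i, a i * U a n i :=
    Finset.sum_nonneg fun i _ => mul_nonneg (hpos i).le (hUnn n i)
  classical
  have hfin : ({v : V | dg G v = 1}.ncard) = (univ.filter (fun v => dg G v = 1)).card := by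
    rw [Set.ncard_eq_toFinset_card']
    congr 1
    ext v
    simp
  rcases Nat.lt_or_ge n 3 with hn3 | hn3
  · -- small trees
    have hle : ({v : V | dg G v = 1}.ncard) ≤ 3 := by
      rw [hfin]
      refine (Finset.card_le_univ _).trans ?_
      omega
    rcases hcount V G hG with ⟨c, hc, hv⟩ | ⟨S, hS4, hS1, hSn⟩
    · have h1 := spider_ge hlegs hself hkc V r a hpos hs G hG c hc hv n hn
      refine le_trans ?_ h1
      have h2 : min (Real.exp (2 * F) / Y) (1 / Real.exp D ^ 3)
          * Real.exp D ^ ({v : V | dg G v = 1}.ncard) ≤ 1 := by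
        calc min (Real.exp (2 * F) / Y) (1 / Real.exp D ^ 3)
              * Real.exp D ^ ({v : V | dg G v = 1}.ncard)
            ≤ (1 / Real.exp D ^ 3) * Real.exp D ^ 3 := by
              apply mul_le_mul (min_le_right _ _) _ (by positivity) (by positivity)
              exact pow_le_pow_right₀ hk1.le hle
          _ = 1 := by field_simp
      calc _ ≤ 1 * ∑ i, a i * U a n i := mul_le_mul_of_nonneg_right h2 hPnn
        _ = _ := one_mul _
    · exfalso
      have : S.card ≤ Fintype.card V := Finset.card_le_univ S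
      omega
  · have hcard3 : 3 ≤ Fintype.card V := by omega
    obtain ⟨hZpos, hlog⟩ := htl V r a lam hg G hG (fun _ _ => 1) (fun _ _ => one_pos)
      (univ.filter (fun v => dg G v = 1)) (fun v hv => by simpa using hv)
      (fun v hv w hw => leaves_nonadj hdel hdgl V hcard3 G hG v w (by simpa using hv)
        (by simpa using hw))
      (fun _ _ _ => rfl)
    have e0 : ∑ v : V, EE a lam (fun i => Real.log ((fun _ _ => (1:ℝ)) v i : ℝ)) = 0 := by
      simp [EE]
    rw [e0, hn, ← hfin] at hlog
    have hX : ∀ i, a i / lam ≤ 1 / lam := fun i => by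
      have := (hpp i).2.2
      gcongr
    have hup := hpu r a lam hg (1 / lam) hX n hn3
    have hexp : lam ^ (n + 1) * WW a lam * Real.exp (2 * F)
        * Real.exp D ^ ({v : V | dg G v = 1}.ncard) ≤ Zf a G (fun _ _ => 1) := by
      rw [← Real.log_le_log_iff (by positivity) hZpos]
      rw [Real.log_mul (by positivity) (by positivity), Real.log_mul (by positivity)
        (by positivity), Real.log_mul (by positivity) hW.ne', Real.log_pow, Real.log_pow,
        Real.log_exp, Real.log_exp]
      have : ((n + 1 : ℕ) : ℝ) * Real.log lam + Real.log (WW a lam) + 2 * F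
        + ({v : V | dg G v = 1}.ncard : ℝ) * D ≤ Real.log (Zf a G (fun _ _ => 1)) := by
        have := hlog
        push_cast at this ⊢
        linarith
      exact this
    refine le_trans ?_ hexp
    calc min (Real.exp (2 * F) / Y) (1 / Real.exp D ^ 3)
          * Real.exp D ^ ({v : V | dg G v = 1}.ncard) * ∑ i, a i * U a n i
        ≤ (Real.exp (2 * F) / Y) * Real.exp D ^ ({v : V | dg G v = 1}.ncard)
          * (lam ^ (n + 1) * WW a lam * Y) := by
          apply mul_le_mul _ hup hPnn (by positivity)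
          exact mul_le_mul_of_nonneg_right (min_le_left _ _) (by positivity)
      _ = _ := by
          field_simp

theorem finalexp (hhom : HOM) (hscale : SCALE) (hpath : PATHZ)
    (hcount : COUNT) (hlegs : LEGS) (hself : SELF) (hkc : KC3) (hlam : LAM)
    (hmf : MFACTS) (htl : TREELOG) (hpu : PATHUP) (hdel : DELTREE) (hdgl : DGLEAF) :
    ∀ r : ℕ, 3 ≤ r → ∀ (W : Type) [Fintype W] (p : W → Fin r), Function.Surjective p →
      (∃ i j : Fin r, Nat.card {w : W // p w = i} ≠ Nat.card {w : W // p w = j}) →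
      ∃ c : ℝ, 0 < c ∧ ∃ κ : ℝ, 1 < κ ∧
      ∀ (n : ℕ) (T : SimpleGraph (Fin n)), T.IsTree →
        c * κ ^ ({v : Fin n | (T.neighborSet v).ncard = 1}.ncard) *
          (Nat.card {f : Fin n → W //
            ∀ a b : Fin n, (SimpleGraph.pathGraph n).Adj a b → p (f a) ≠ p (f b)} : ℝ)
          ≤ (Nat.card {f : Fin n → W // ∀ a b : Fin n, T.Adj a b → p (f a) ≠ p (f b)} : ℝ) := by
  intro r hr W _ p hp hne
  classical
  have hcard : (∑ i : Fin r, (Nat.card {w : W // p w = i} : ℝ)) = Nat.card W := by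
    have h1 : Nat.card W = ∑ i : Fin r, Nat.card {w : W // p w = i} := by
      simp only [Nat.card_eq_fintype_card]
      rw [← Fintype.card_sigma]
      exact Fintype.card_congr (Equiv.sigmaFiberEquiv p).symm
    rw [h1]
    push_cast
    rfl
  have hcpos : ∀ i : Fin r, 0 < (Nat.card {w : W // p w = i} : ℝ) := by
    intro i
    obtain ⟨w, hw⟩ := hp i
    have : Nonempty {w : W // p w = i} := ⟨⟨w, hw⟩⟩
    exact_mod_cast Nat.card_pos
  set s : ℝ := (Nat.card W : ℝ) with hs
  have hspos : 0 < s := by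
    rw [← hcard]
    have : Nonempty (Fin r) := ⟨⟨0, by omega⟩⟩
    exact Finset.sum_pos (fun i _ => hcpos i) Finset.univ_nonempty
  set a : Fin r → ℝ := fun i => (Nat.card {w : W // p w = i} : ℝ) / s with ha
  have hsa : (fun i : Fin r => (Nat.card {w : W // p w = i} : ℝ)) = fun i => s * a i := by
    funext i
    simp only [ha]
    field_simp
  have hapos : ∀ i, 0 < a i := fun i => div_pos (hcpos i) hspos
  have hasum : ∑ i, a i = 1 := by
    simp only [ha]
    rw [← Finset.sum_div, hcard, div_self hspos.ne']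
  have hane : ∃ i j, a i ≠ a j := by
    obtain ⟨i, j, hij⟩ := hne
    refine ⟨i, j, fun h => hij ?_⟩
    simp only [ha] at h
    rw [div_left_inj' hspos.ne'] at h
    exact_mod_cast h
  obtain ⟨c, hc, κ, hκ, key⟩ := expmain hcount hlegs hself hkc hlam hmf htl hpu hdel hdgl r hr a
    hapos hasum hane
  refine ⟨c, hc, κ, hκ, ?_⟩
  intro n T hT
  obtain _ | n := n
  · exfalso
    obtain ⟨v⟩ := hT.connected.nonempty
    exact v.elim0
  have key' := key (Fin (n + 1)) T hT n (by simp)
  rw [← hpath n r a] at key'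
  have h1 := hhom r W p (Fin (n + 1)) (SimpleGraph.pathGraph (n + 1))
  have h2 := hhom r W p (Fin (n + 1)) T
  rw [hsa, hscale] at h1 h2
  rw [h1, h2]
  have h4 := mul_le_mul_of_nonneg_left key' (le_of_lt (pow_pos hspos (Fintype.card (Fin (n + 1)))))
  refine le_trans (le_of_eq ?_) h4
  unfold dg
  ring

end Pool.W650.HL
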