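import Pool.Agent.W650.HL.Stm

set_option autoImplicit false

namespace Pool.W650.HL

open Finset

variable {r : ℕ}

/-- nonnegative and decreasing in the weight -/
def Dec (a f : Fin r → ℝ) : Prop :=
  (∀ i, 0 ≤ f i) ∧ ∀ i j, a j ≤ a i → f i ≤ f j

/-- nonnegative, and a f increasing in the weight -/
def Inc (a f : Fin r → ℝ) : Prop :=
  (∀ i, 0 ≤ f i) ∧ ∀ i j, a j ≤ a i → a j * f j ≤ a i * f i

theorem sum_two_le (a f : Fin r → ℝ) (hpos : ∀ i, 0 < a i) (hf : ∀ i, 0 ≤ f i) (i j : Fin r)
    (hij : i ≠ j) : a i * f i + a j * f j ≤ ∑ k, a k * f k := by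
  have h1 := Finset.add_sum_erase univ (fun k => a k * f k) (Finset.mem_univ i)
  have h2 := Finset.add_sum_erase (univ.erase i) (fun k => a k * f k)
    (Finset.mem_erase.2 ⟨hij.symm, Finset.mem_univ j⟩)
  have h3 : 0 ≤ ∑ k ∈ (univ.erase i).erase j, a k * f k :=
    Finset.sum_nonneg fun k _ => mul_nonneg (hpos k).le (hf k)
  linarith

theorem Mop_nonneg (a f : Fin r → ℝ) (hpos : ∀ i, 0 < a i) (hf : ∀ i, 0 ≤ f i) (i : Fin r) :
    0 ≤ Mop a f i := by
  unfold Mop
  have h1 := Finset.add_sum_erase univ (fun k => a k * f k) (Finset.mem_univ i)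
  have h3 : 0 ≤ ∑ k ∈ univ.erase i, a k * f k :=
    Finset.sum_nonneg fun k _ => mul_nonneg (hpos k).le (hf k)
  linarith

theorem Dec.mop {a f : Fin r → ℝ} (hpos : ∀ i, 0 < a i) (hf : Dec a f) : Inc a (Mop a f) := by
  refine ⟨Mop_nonneg a f hpos hf.1, ?_⟩
  intro i j hij
  rcases eq_or_ne i j with h | h
  · rw [h]
  have hE := sum_two_le a f hpos hf.1 i j h
  have hfij := hf.2 i j hij
  unfold Mop
  set E := ∑ k, a k * f k
  have hi := hpos i
  have hj := hpos j
  have h1 : a j * f i ≤ a j * f j := mul_le_mul_of_nonneg_left hfij hj.le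
  have h2 : 0 ≤ (a i - a j) * (E - (a i + a j) * f i) :=
    mul_nonneg (by linarith) (by nlinarith)
  have h3 : a j * a j * f i ≤ a j * a j * f j := by
    have := mul_le_mul_of_nonneg_left h1 hj.le
    nlinarith
  nlinarith

theorem Inc.mop {a f : Fin r → ℝ} (hpos : ∀ i, 0 < a i) (hf : Inc a f) : Dec a (Mop a f) := by
  refine ⟨Mop_nonneg a f hpos hf.1, ?_⟩
  intro i j hij
  have := hf.2 i j hij
  unfold Mop
  linarith

theorem Dec.mul {a f g : Fin r → ℝ} (hf : Dec a f) (hg : Dec a g) :
    Dec a (fun i => f i * g i) :=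
  ⟨fun i => mul_nonneg (hf.1 i) (hg.1 i), fun i j hij =>
    mul_le_mul (hf.2 i j hij) (hg.2 i j hij) (hg.1 i) (hf.1 j)⟩

theorem Dec_one (a : Fin r → ℝ) : Dec a (fun _ => 1) :=
  ⟨fun _ => zero_le_one, fun _ _ _ => le_rfl⟩

theorem Inc_one (a : Fin r → ℝ) : Inc a (fun _ => 1) :=
  ⟨fun _ => zero_le_one, fun i j hij => by simpa using hij⟩

theorem U_succ (a : Fin r → ℝ) (k : ℕ) : U a (k + 1) = Mop a (U a k) := by
  unfold U
  rw [Function.iterate_succ_apply']

theorem U_decinc (a : Fin r → ℝ) (hpos : ∀ i, 0 < a i) (k : ℕ) :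
    Dec a (U a k) ∧ Inc a (U a k) := by
  induction k with
  | zero => exact ⟨Dec_one a, Inc_one a⟩
  | succ k ih =>
    rw [U_succ]
    exact ⟨ih.2.mop hpos, ih.1.mop hpos⟩

theorem Dec.congr {a f : Fin r → ℝ} (hf : Dec a f) (c d : Fin r) (h : a c = a d) : f c = f d :=
  le_antisymm (hf.2 c d h.ge) (hf.2 d c h.le)

/-- star product -/
noncomputable def star (a f g : Fin r → ℝ) (c : Fin r) : ℝ :=
  f c * g c + ∑ d, a d * ((f c - f d) * (g c - g d) / (a c - a d))

theorem star_antisymm (a f g h : Fin r → ℝ) :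
    ∑ c, a c * (h c * ∑ d, a d * ((f c - f d) * (g c - g d) / (a c - a d)))
      = 1 / 2 * ∑ c, ∑ d, a c * a d * ((h c - h d) * ((f c - f d) * (g c - g d) / (a c - a d))) := by
  have e1 : ∑ c, a c * (h c * ∑ d, a d * ((f c - f d) * (g c - g d) / (a c - a d)))
      = ∑ c, ∑ d, a c * a d * (h c * ((f c - f d) * (g c - g d) / (a c - a d))) := by
    refine Finset.sum_congr rfl fun c _ => ?_
    rw [Finset.mul_sum, Finset.mul_sum]
    exact Finset.sum_congr rfl fun d _ => by ring
  have e2 : ∑ c, ∑ d, a c * a d * (h c * ((f c - f d) * (g c - g d) / (a c - a d)))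
      = - ∑ c, ∑ d, a c * a d * (h d * ((f c - f d) * (g c - g d) / (a c - a d))) := by
    rw [Finset.sum_comm, ← Finset.sum_neg_distrib]
    refine Finset.sum_congr rfl fun c _ => ?_
    rw [← Finset.sum_neg_distrib]
    refine Finset.sum_congr rfl fun d _ => ?_
    have : (f d - f c) * (g d - g c) / (a d - a c)
        = - ((f c - f d) * (g c - g d) / (a c - a d)) := by
      rw [← neg_sub (a c) (a d), div_neg]
      ring
    rw [this]
    ring
  have e3 : ∑ c, ∑ d, a c * a d * ((h c - h d) * ((f c - f d) * (g c - g d) / (a c - a d)))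
      = ∑ c, ∑ d, a c * a d * (h c * ((f c - f d) * (g c - g d) / (a c - a d)))
        - ∑ c, ∑ d, a c * a d * (h d * ((f c - f d) * (g c - g d) / (a c - a d))) := by
    rw [← Finset.sum_sub_distrib]
    refine Finset.sum_congr rfl fun c _ => ?_
    rw [← Finset.sum_sub_distrib]
    exact Finset.sum_congr rfl fun d _ => by ring
  rw [e1, e3]
  linarith

theorem star_mean (a f g : Fin r → ℝ) :
    ∑ c, a c * star a f g c = ∑ c, a c * (f c * g c) := by
  have h := star_antisymm a f g (fun _ => 1)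
  simp only [sub_self, zero_mul, mul_zero, Finset.sum_const_zero, one_mul] at h
  unfold star
  simp only [mul_add, Finset.sum_add_distrib]
  rw [h, add_zero]

theorem star_Mop (a f g : Fin r → ℝ) (hs : ∑ i, a i = 1)
    (hg : ∀ c d, a c = a d → g c = g d) :
    star a (Mop a f) g = Mop a (star a f g) := by
  funext c
  have hterm : ∀ d, a d * ((Mop a f c - Mop a f d) * (g c - g d) / (a c - a d))
      = - (a c * (a d * ((f c - f d) * (g c - g d) / (a c - a d))))
        - (a d * f d * g c - a d * (f d * g d)) := by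
    intro d
    unfold Mop
    rcases eq_or_ne (a c) (a d) with h | h
    · have h' := hg c d h
      rw [h']
      simp
      ring
    · have h1 : a c - a d ≠ 0 := sub_ne_zero.2 h
      field_simp
      ring
  have hmean := star_mean a f g
  unfold Mop at *
  unfold star at *
  rw [Finset.sum_congr rfl fun d _ => hterm d, Finset.sum_sub_distrib, Finset.sum_sub_distrib,
    Finset.sum_neg_distrib, ← Finset.mul_sum, ← Finset.sum_mul, hmean]
  ring

theorem star_one (a g : Fin r → ℝ) : star a (fun _ => 1) g = g := by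
  funext c
  simp [star]

theorem U_star (a : Fin r → ℝ) (hs : ∑ i, a i = 1) (k : ℕ)
    (g : Fin r → ℝ) (hg : ∀ c d, a c = a d → g c = g d) :
    star a (U a k) g = (Mop a)^[k] g := by
  induction k with
  | zero => exact star_one a g
  | succ k ih =>
    rw [U_succ, star_Mop a _ g hs hg, ih, Function.iterate_succ_apply']

theorem merge (a : Fin r → ℝ) (hpos : ∀ i, 0 < a i) (hs : ∑ i, a i = 1) (h : Fin r → ℝ)
    (hh : Dec a h) (k l : ℕ) :
    ∑ c, a c * (h c * U a (k + l) c) ≤ ∑ c, a c * (h c * (U a k c * U a l c)) := by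
  have hk := (U_decinc a hpos k).1
  have hl := (U_decinc a hpos l).1
  have e1 : U a (k + l) = star a (U a k) (U a l) := by
    rw [U_star a hs k (U a l) (fun c d hcd => hl.congr c d hcd)]
    unfold U
    rw [Function.iterate_add_apply]
  have e2 : ∑ c, a c * (h c * U a (k + l) c)
      = ∑ c, a c * (h c * (U a k c * U a l c)) + ∑ c, a c * (h c * ∑ d, a d *
        ((U a k c - U a k d) * (U a l c - U a l d) / (a c - a d))) := by
    rw [e1, ← Finset.sum_add_distrib]
    refine Finset.sum_congr rfl fun c _ => ?_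
    unfold star
    ring
  rw [e2, star_antisymm]
  have : ∑ c, ∑ d, a c * a d * ((h c - h d) * ((U a k c - U a k d) * (U a l c - U a l d) /
      (a c - a d))) ≤ 0 := by
    apply Finset.sum_nonpos
    intro c _
    apply Finset.sum_nonpos
    intro d _
    have hcd : 0 < a c * a d := mul_pos (hpos c) (hpos d)
    apply mul_nonpos_of_nonneg_of_nonpos hcd.le
    rcases lt_trichotomy (a c) (a d) with hlt | heq | hgt
    · have h1 : 0 ≤ h c - h d := by have := hh.2 d c hlt.le; linarith
      have h2 : 0 ≤ U a k c - U a k d := by have := hk.2 d c hlt.le; linarith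
      have h3 : 0 ≤ U a l c - U a l d := by have := hl.2 d c hlt.le; linarith
      exact mul_nonpos_of_nonneg_of_nonpos h1
        (div_nonpos_of_nonneg_of_nonpos (mul_nonneg h2 h3) (by linarith))
    · rw [heq]
      simp
    · have h1 : h c - h d ≤ 0 := by have := hh.2 c d hgt.le; linarith
      have h2 : U a k c - U a k d ≤ 0 := by have := hk.2 c d hgt.le; linarith
      have h3 : U a l c - U a l d ≤ 0 := by have := hl.2 c d hgt.le; linarith
      exact mul_nonpos_of_nonpos_of_nonneg h1
        (div_nonneg (mul_nonneg_of_nonpos_of_nonpos h2 h3) (by linarith))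
  linarith

end Pool.W650.HL
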