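import Pool.Agent.W650.HL.Exp
import Pool.Agent.W650.HL.OneA
import Pool.Agent.W15.HL.TreeLog

set_option autoImplicit false

namespace Pool.W650.HL

open Finset

variable {r : ℕ}

theorem Zf_congr {V : Type} [Fintype V] (a : Fin r → ℝ) (G : SimpleGraph V)
    (F F' : V → Fin r → ℝ) (h : ∀ v i, F v i = F' v i) : Zf a G F = Zf a G F' := by
  have : F = F' := by
    funext v i
    exact h v i
  rw [this]

theorem Zf_single {V : Type} [Fintype V] (a : Fin r → ℝ) (G : SimpleGraph V)
    (F : V → Fin r → ℝ) (h1 : Fintype.card V = 1) (u : V) :
    Zf a G F = ∑ i, a i * F u i := by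
  obtain ⟨x, hx⟩ := Fintype.card_eq_one_iff.1 h1
  exact Pool.Agent.W15.HL.Zf_one a G F u (fun y => (hx y).trans (hx u).symm)

theorem card_del {V : Type} [Fintype V] [DecidableEq V] (l : V) :
    Fintype.card {x : V // x ≠ l} = Fintype.card V - 1 := by
  rw [Fintype.card_subtype_compl, Fintype.card_subtype_eq]

theorem dech (hrem : LEAFREM) (hdel : DELTREE) (hex : EXLEAF) (hdgl : DGLEAF)
    (a : Fin r → ℝ) (hpos : ∀ i, 0 < a i) (N : ℕ) :
    ∀ (V : Type) [Fintype V] (G : SimpleGraph V), Fintype.card V = N + 1 → G.IsTree →
    ∀ (A : V → Prop), (∀ v w, G.Adj v w → (A v ↔ ¬ A w)) → (∀ v, ¬ A v → dg G v ≤ 2) →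
    ∀ (u : V), A u → ∀ (F : V → Fin r → ℝ), (∀ v, A v → Dec a (F v)) →
    (∀ v, ¬ A v → dg G v = 2 → ∀ i, F v i = 1) → (∀ v, ¬ A v → dg G v ≤ 1 → Inc a (F v)) →
    ∃ h : Fin r → ℝ, Dec a h ∧ ∀ F' : V → Fin r → ℝ, (∀ v, v ≠ u → ∀ i, F' v i = F v i) →
      Zf a G F' = ∑ i, a i * (h i * F' u i) := by
  induction N with
  | zero =>
    intro V _ G hc hG A hA hA2 u hu F hF1 hF2 hF3
    refine ⟨fun _ => 1, Dec_one a, fun F' _ => ?_⟩
    rw [Zf_single a G _ hc u]
    simp
  | succ N ih =>
    intro V _ G hc hG A hA hA2 u hu F hF1 hF2 hF3
    classical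
    obtain ⟨l, w, hlu, hleaf⟩ := hex V G hG u (by omega)
    have hwl : w ≠ l := hleaf.1.ne'
    obtain ⟨ht, hd⟩ := hdel V G l w hG hleaf
    have hcard : Fintype.card {x : V // x ≠ l} = N + 1 := by
      rw [card_del, hc]
      rfl
    have hdl : dg G l = 1 := (hdgl V G l).2 ⟨w, hleaf⟩
    -- restricted data
    let A' : {x : V // x ≠ l} → Prop := fun v => A v.1
    have hA' : ∀ v w, (del G l).Adj v w → (A' v ↔ ¬ A' w) := fun v w hvw => hA v.1 w.1 hvw
    have hA2' : ∀ v, ¬ A' v → dg (del G l) v ≤ 2 := by
      intro v hv
      have h2 := hA2 v.1 hv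
      by_cases hvw : v.1 = w
      · have := (hd v).1 hvw
        omega
      · rw [(hd v).2 hvw]
        exact h2
    by_cases hwu : w = u
    · subst hwu
      -- the leaf hangs at the root
      have hlA : ¬ A l := by
        intro h
        exact ((hA l w hleaf.1).1 h) hu
      have hFl : Inc a (F l) := hF3 l hlA (by omega)
      obtain ⟨h, hh, hZ⟩ := ih {x : V // x ≠ l} (del G l) hcard ht A' hA' hA2' ⟨w, hwl⟩ hu
        (fun v => F v.1) (fun v hv => hF1 v.1 hv)
        (fun v hv hv2 => by
          have hvw : v.1 ≠ w := fun h => hv (by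
            show A v.1
            rw [h]
            exact hu)
          rw [(hd v).2 hvw] at hv2
          exact hF2 v.1 hv hv2)
        (fun v hv hv2 => by
          have hvw : v.1 ≠ w := fun h => hv (by
            show A v.1
            rw [h]
            exact hu)
          rw [(hd v).2 hvw] at hv2
          exact hF3 v.1 hv hv2)
      refine ⟨fun i => h i * Mop a (F l) i, hh.mul (hFl.mop hpos), fun F' hF' => ?_⟩
      rw [hrem V r a G _ l w hleaf]
      have hFl' : F' l = F l := funext fun i => hF' l hlu i
      rw [hZ _ (fun v hv i => by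
        have hvw : v.1 ≠ w := fun h => hv (Subtype.ext h)
        simp only [hvw, if_false]
        exact hF' v.1 hvw i)]
      refine Finset.sum_congr rfl fun i _ => ?_
      simp only [if_true, hFl']
      ring
    · -- the leaf hangs elsewhere
      have hul : u ≠ l := hlu.symm
      have hcard3 : 3 ≤ Fintype.card V := by
        have h3 : ({l, w, u} : Finset V).card = 3 := by
          rw [Finset.card_insert_of_notMem, Finset.card_insert_of_notMem, Finset.card_singleton]
          · simpa using hwu
          · simp [hwl.symm, hlu]
        rw [← h3]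
        exact Finset.card_le_univ _
      have hdw1 : dg G w ≠ 1 := by
        intro h
        exact leaves_nonadj hdel hdgl V hcard3 G hG l w hdl h hleaf.1
      have hdwpos : dg (del G l) ⟨w, hwl⟩ + 1 = dg G w := (hd ⟨w, hwl⟩).1 rfl
      let F'' : {x : V // x ≠ l} → Fin r → ℝ :=
        fun v i => if v.1 = w then F w i * Mop a (F l) i else F v.1 i
      have key : ∀ v : {x : V // x ≠ l}, v.1 ≠ w → F'' v = F v.1 := by
        intro v hv
        funext i
        simp [F'', hv]
      have keyw : ∀ v : {x : V // x ≠ l}, v.1 = w → F'' v = fun i => F w i * Mop a (F l) i := by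
        intro v hv
        funext i
        simp [F'', hv]
      obtain ⟨h, hh, hZ⟩ := ih {x : V // x ≠ l} (del G l) hcard ht A' hA' hA2' ⟨u, hul⟩ hu
        F''
        (fun v hv => by
          by_cases hvw : v.1 = w
          · rw [keyw v hvw]
            have hwA : A w := by
              have : A v.1 := hv
              rwa [hvw] at this
            have hlA : ¬ A l := by
              intro h
              exact ((hA l w hleaf.1).1 h) hwA
            exact (hF1 w hwA).mul ((hF3 l hlA (by omega)).mop hpos)
          · rw [key v hvw]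
            exact hF1 v.1 hv)
        (fun v hv hv2 i => by
          by_cases hvw : v.1 = w
          · exfalso
            have hwA : ¬ A w := by
              have : ¬ A v.1 := hv
              rwa [hvw] at this
            have h1 := (hd v).1 hvw
            have h2 := hA2 w hwA
            rw [hvw] at h1
            omega
          · rw [key v hvw]
            rw [(hd v).2 hvw] at hv2
            exact hF2 v.1 hv hv2 i)
        (fun v hv hv2 => by
          by_cases hvw : v.1 = w
          · rw [keyw v hvw]
            have hwA : ¬ A w := by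
              have : ¬ A v.1 := hv
              rwa [hvw] at this
            have hlA : A l := by
              by_contra h
              exact h ((hA l w hleaf.1).2 hwA)
            have h2 := hA2 w hwA
            have hw2 : dg G w = 2 := by omega
            have hF := hF2 w hwA hw2
            have e : (fun i => F w i * Mop a (F l) i) = Mop a (F l) := by
              funext i
              rw [hF i, one_mul]
            rw [e]
            exact (hF1 l hlA).mop hpos
          · rw [key v hvw]
            rw [(hd v).2 hvw] at hv2
            exact hF3 v.1 hv hv2)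
      refine ⟨h, hh, fun F' hF' => ?_⟩
      rw [hrem V r a G _ l w hleaf]
      have hFl' : F' l = F l := funext fun i => hF' l hlu i
      rw [hZ _ (fun v hv i => by
        have hvu : v.1 ≠ u := fun h => hv (Subtype.ext h)
        by_cases hvw : v.1 = w
        · simp only [hvw, if_true, F'', hFl']
          rw [hF' w hwu i]
        · simp only [hvw, if_false, F'']
          exact hF' v.1 hvu i)]
      refine Finset.sum_congr rfl fun i _ => ?_
      have huw : u ≠ w := fun h => hwu h.symm
      simp only [huw, if_false]

end Pool.W650.HL
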