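import Pool.Agent.W650.HL.OneB

set_option autoImplicit false

namespace Pool.W650.HL

open Finset

variable {r : ℕ}

theorem oneclass (hrem : LEAFREM) (hdel : DELTREE) (hex : EXLEAF) (hdgl : DGLEAF) (hself : SELF)
    (a : Fin r → ℝ) (hpos : ∀ i, 0 < a i) (hs : ∑ i, a i = 1) (N : ℕ) :
    ∀ (V : Type) [Fintype V] (G : SimpleGraph V), Fintype.card V = N + 1 → G.IsTree →
    ∀ (A : V → Prop), (∀ v w, G.Adj v w → (A v ↔ ¬ A w)) → (∀ v, ¬ A v → dg G v ≤ 2) →
    ∀ (K : V → ℕ), (∀ v, ¬ A v → dg G v = 2 → K v = 0) →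
    ∑ i, a i * U a (N + ∑ v, K v) i ≤ Zf a G (fun v => U a (K v)) := by
  induction N with
  | zero =>
    intro V _ G hc hG A hA hA2 K hK
    obtain ⟨x, hx⟩ := Fintype.card_eq_one_iff.1 hc
    rw [Zf_single a G _ hc x]
    have : ∑ v, K v = K x := by
      rw [Fintype.sum_eq_single x]
      intro y hy
      exact absurd (hx y) hy
    rw [this, zero_add]
  | succ N ih =>
    intro V _ G hc hG A hA hA2 K hK
    classical
    -- a vertex of A
    have hnt : Nontrivial V := by
      rw [← Fintype.one_lt_card_iff_nontrivial, hc]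
      omega
    obtain ⟨c, hcA⟩ : ∃ c, A c := by
      obtain ⟨x, _, _⟩ := exists_pair_ne V
      obtain ⟨y, hy⟩ := hG.connected.preconnected.exists_adj_of_nontrivial x
      by_cases hx : A x
      · exact ⟨x, hx⟩
      · refine ⟨y, ?_⟩
        by_contra h
        exact hx ((hA x y hy).2 h)
    obtain ⟨l, w, hlc, hleaf⟩ := hex V G hG c (by omega)
    have hwl : w ≠ l := hleaf.1.ne'
    obtain ⟨ht, hd⟩ := hdel V G l w hG hleaf
    have hcard : Fintype.card {x : V // x ≠ l} = N + 1 := by
      rw [card_del, hc]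
      rfl
    have hdl : dg G l = 1 := (hdgl V G l).2 ⟨w, hleaf⟩
    have hA' : ∀ v w : {x : V // x ≠ l}, (del G l).Adj v w → (A v.1 ↔ ¬ A w.1) :=
      fun v w hvw => hA v.1 w.1 hvw
    have hA2' : ∀ v : {x : V // x ≠ l}, ¬ A v.1 → dg (del G l) v ≤ 2 := by
      intro v hv
      have h2 := hA2 v.1 hv
      by_cases hvw : v.1 = w
      · have := (hd v).1 hvw
        omega
      · rw [(hd v).2 hvw]
        exact h2
    have hdwpos : dg (del G l) ⟨w, hwl⟩ + 1 = dg G w := (hd ⟨w, hwl⟩).1 rfl
    -- new lengths
    let K' : {x : V // x ≠ l} → ℕ := fun v => if v.1 = w then K w + (K l + 1) else K v.1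
    have hKsum : N + ∑ v, K' v = N + 1 + ∑ v, K v := by
      have e1 : ∑ v : {x : V // x ≠ l}, K' v
          = ∑ v : {x : V // x ≠ l}, K v.1 + (K l + 1) := by
        have : ∀ v : {x : V // x ≠ l}, K' v
            = K v.1 + (if v = ⟨w, hwl⟩ then (K l + 1) else 0) := by
          intro v
          by_cases hv : v.1 = w
          · have h2 : v = ⟨w, hwl⟩ := Subtype.ext hv
            simp [K', h2]
          · have h2 : v ≠ ⟨w, hwl⟩ := fun h => hv (congrArg Subtype.val h)
            simp [K', hv, h2]
        rw [Finset.sum_congr rfl fun v _ => this v, Finset.sum_add_distrib]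
        simp
      have e2 : ∑ v, K v = K l + ∑ v : {x : V // x ≠ l}, K v.1 := by
        rw [← Finset.add_sum_erase univ K (Finset.mem_univ l)]
        congr 1
        rw [← Finset.sum_subtype (univ.erase l) (p := fun x => x ≠ l) (fun x => by simp) K]
      rw [e1, e2]
      ring
    have hK' : ∀ v : {x : V // x ≠ l}, ¬ A v.1 → dg (del G l) v = 2 → K' v = 0 := by
      intro v hv hv2
      by_cases hvw : v.1 = w
      · exfalso
        have h1 := (hd v).1 hvw
        have h2 := hA2 v.1 hv
        omega
      · rw [(hd v).2 hvw] at hv2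
        simp only [K', hvw, if_false]
        exact hK v.1 hv hv2
    have hih := ih {x : V // x ≠ l} (del G l) hcard ht (fun v => A v.1) hA' hA2' K' hK'
    rw [hKsum] at hih
    refine hih.trans ?_
    rw [hrem V r a G _ l w hleaf]
    by_cases hwA : A w
    · -- merging at w
      have hlA : ¬ A l := by
        intro h
        exact ((hA l w hleaf.1).1 h) hwA
      obtain ⟨h, hh, hZ⟩ := dech hrem hdel hex hdgl a hpos N {x : V // x ≠ l} (del G l) hcard ht
        (fun v => A v.1) hA' hA2' ⟨w, hwl⟩ hwA (fun v => U a (K v.1))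
        (fun v _ => (U_decinc a hpos (K v.1)).1)
        (fun v hv hv2 i => by
          by_cases hvw : v.1 = w
          · exact absurd (show A v.1 by rw [hvw]; exact hwA) hv
          · rw [(hd v).2 hvw] at hv2
            rw [hK v.1 hv hv2]
            rfl)
        (fun v _ _ => (U_decinc a hpos (K v.1)).2)
      rw [hZ (fun v => U a (K' v)) (fun v hv i => by
        have hvw : v.1 ≠ w := fun h => hv (Subtype.ext h)
        simp only [K', hvw, if_false])]
      rw [hZ _ (fun v hv i => by
        have hvw : v.1 ≠ w := fun h => hv (Subtype.ext h)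
        simp only [hvw, if_false])]
      have hm := merge a hpos hs h hh (K w) (K l + 1)
      simp only [K', if_true]
      rw [← U_succ]
      exact hm
    · -- w has degree two
      have hcw : c ≠ w := fun h => hwA (h ▸ hcA)
      have hcard3 : 3 ≤ Fintype.card V := by
        have h3 : ({l, w, c} : Finset V).card = 3 := by
          rw [Finset.card_insert_of_notMem, Finset.card_insert_of_notMem, Finset.card_singleton]
          · simpa using hcw.symm
          · simp [hwl.symm, hlc]
        rw [← h3]
        exact Finset.card_le_univ _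
      have hdw1 : dg G w ≠ 1 := by
        intro h
        exact leaves_nonadj hdel hdgl V hcard3 G hG l w hdl h hleaf.1
      have hw2 : dg G w = 2 := by
        have := hA2 w hwA
        have h0 : dg G w ≠ 0 := by omega
        omega
      have hKw := hK w hwA hw2
      apply le_of_eq
      apply Zf_congr
      intro v i
      by_cases hvw : v.1 = w
      · simp only [K', hvw, if_true, hKw, zero_add]
        rw [U_succ]
        simp [U]
      · simp only [K', hvw, if_false]

theorem finalone (hhom : HOM) (hscale : SCALE) (hpath : PATHZ)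
    (hrem : LEAFREM) (hdel : DELTREE) (hex : EXLEAF) (hdgl : DGLEAF) (hself : SELF) :
    ∀ r : ℕ, 3 ≤ r → ∀ (W : Type) [Fintype W] (p : W → Fin r), Function.Surjective p →
      ∀ (n : ℕ) (T : SimpleGraph (Fin n)), T.IsTree →
        (∃ A : Set (Fin n), (∀ u v, T.Adj u v → (u ∈ A ↔ v ∉ A)) ∧
          ∀ v, v ∉ A → (T.neighborSet v).ncard ≤ 2) →
        Nat.card {f : Fin n → W //
            ∀ a b : Fin n, (SimpleGraph.pathGraph n).Adj a b → p (f a) ≠ p (f b)}
          ≤ Nat.card {f : Fin n → W // ∀ a b : Fin n, T.Adj a b → p (f a) ≠ p (f b)} := by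
  intro r hr W _ p hp n T hT ⟨A, hA, hA2⟩
  classical
  obtain _ | n := n
  · exfalso
    obtain ⟨v⟩ := hT.connected.nonempty
    exact v.elim0
  have hcard : (∑ i : Fin r, (Nat.card {w : W // p w = i} : ℝ)) = Nat.card W := by
    have h1 : Nat.card W = ∑ i : Fin r, Nat.card {w : W // p w = i} := by
      simp only [Nat.card_eq_fintype_card]
      rw [← Fintype.card_sigma]
      exact Fintype.card_congr (Equiv.sigmaFiberEquiv p).symm
    rw [h1]
    push_cast
    rfl
  have hcpos : ∀ i : Fin r, 0 < (Nat.card {w : W // p w = i} : ℝ) := by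
    intro i
    obtain ⟨w, hw⟩ := hp i
    have : Nonempty {w : W // p w = i} := ⟨⟨w, hw⟩⟩
    exact_mod_cast Nat.card_pos
  set s : ℝ := (Nat.card W : ℝ) with hs
  have hspos : 0 < s := by
    rw [← hcard]
    have : Nonempty (Fin r) := ⟨⟨0, by omega⟩⟩
    exact Finset.sum_pos (fun i _ => hcpos i) Finset.univ_nonempty
  set a : Fin r → ℝ := fun i => (Nat.card {w : W // p w = i} : ℝ) / s with ha
  have hsa : (fun i : Fin r => (Nat.card {w : W // p w = i} : ℝ)) = fun i => s * a i := by
    funext i
    simp only [ha]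
    field_simp
  have hapos : ∀ i, 0 < a i := fun i => div_pos (hcpos i) hspos
  have hasum : ∑ i, a i = 1 := by
    simp only [ha]
    rw [← Finset.sum_div, hcard, div_self hspos.ne']
  have key : ∑ i, a i * U a n i ≤ Zf a T (fun _ _ => 1) := by
    have h := oneclass hrem hdel hex hdgl hself a hapos hasum n (Fin (n + 1)) T (by simp) hT
      (fun v => v ∈ A) hA hA2 (fun _ => 0) (fun _ _ _ => rfl)
    simp only [Finset.sum_const_zero, add_zero] at h
    exact h
  rw [← hpath n r a] at key
  have h1 := hhom r W p (Fin (n + 1)) (SimpleGraph.pathGraph (n + 1))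
  have h2 := hhom r W p (Fin (n + 1)) T
  rw [hsa, hscale] at h1 h2
  have : ((Nat.card {f : Fin (n + 1) → W //
            ∀ a b : Fin (n + 1), (SimpleGraph.pathGraph (n + 1)).Adj a b → p (f a) ≠ p (f b)} : ℕ) : ℝ)
          ≤ ((Nat.card {f : Fin (n + 1) → W //
            ∀ a b : Fin (n + 1), T.Adj a b → p (f a) ≠ p (f b)} : ℕ) : ℝ) := by
    rw [h1, h2]
    exact mul_le_mul_of_nonneg_left key (by positivity)
  exact_mod_cast this

end Pool.W650.HL
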